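import Mathlib

/-!
# Ideals generated by linear forms are prime; minimal primes of ideals generated by products
of linear forms
-/

set_option autoImplicit false

namespace Pool.Agent.W598.ER

open MvPolynomial

section LinPrime

variable {L : Type} [Field L] {n : ℕ}

/-- the linear form with coefficients c -/
noncomputable def lin : (Fin n → L) →ₗ[L] MvPolynomial (Fin n) L :=
  Fintype.linearCombination L (fun i => (X i : MvPolynomial (Fin n) L))

theorem lin_apply (c : Fin n → L) : lin c = ∑ i, c i • (X i : MvPolynomial (Fin n) L) := rfl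

theorem lin_single (i : Fin n) : lin (Pi.single i (1 : L)) = X i := by
  rw [lin_apply, Finset.sum_eq_single i]
  · simp
  · intro j _ hj
    simp [Pi.single_eq_of_ne hj]
  · intro h
    exact absurd (Finset.mem_univ i) h

theorem lin_homog (c : Fin n → L) : (lin c).IsHomogeneous 1 := by
  rw [lin_apply]
  apply MvPolynomial.IsHomogeneous.sum
  intro i _
  rw [MvPolynomial.smul_eq_C_mul]
  have := (MvPolynomial.isHomogeneous_C (Fin n) (c i)).mul (MvPolynomial.isHomogeneous_X L i)
  simpa using this

theorem lin_eval (c v : Fin n → L) : MvPolynomial.eval v (lin c) = ∑ i, c i * v i := by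
  rw [lin_apply, map_sum]
  apply Finset.sum_congr rfl
  intro i _
  rw [MvPolynomial.smul_eval, MvPolynomial.eval_X]

theorem span_lin_prime (W : Submodule L (Fin n → L)) :
    (Ideal.span (lin '' (W : Set (Fin n → L)))).IsPrime := by
  classical
  obtain ⟨s, hs⟩ := W.mkQ.exists_rightInverse_of_surjective (Submodule.range_mkQ W)
  set p : (Fin n → L) →ₗ[L] (Fin n → L) := s.comp W.mkQ with hp
  have hp1 : ∀ v ∈ W, p v = 0 := by
    intro v hv
    rw [hp, LinearMap.comp_apply, Submodule.mkQ_apply, (Submodule.Quotient.mk_eq_zero W).2 hv,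
      map_zero]
  have hp2 : ∀ v, v - p v ∈ W := by
    intro v
    rw [← Submodule.Quotient.mk_eq_zero W, ← Submodule.mkQ_apply, map_sub, sub_eq_zero]
    have := LinearMap.congr_fun hs (W.mkQ v)
    rw [LinearMap.comp_apply, LinearMap.id_apply] at this
    exact this.symm
  set φ : MvPolynomial (Fin n) L →ₐ[L] MvPolynomial (Fin n) L :=
    MvPolynomial.aeval (fun i => lin (p (Pi.single i 1))) with hφ
  set J := Ideal.span (lin '' (W : Set (Fin n → L))) with hJ
  have h1 : ∀ c, φ (lin c) = lin (p c) := by
    intro c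
    rw [lin_apply c, map_sum]
    have h2 : c = ∑ i, c i • (Pi.single i (1 : L) : Fin n → L) := by
      ext j
      simp [Finset.sum_apply, Pi.single_apply]
    conv_rhs => rw [h2]
    rw [map_sum, map_sum]
    apply Finset.sum_congr rfl
    intro i _
    rw [map_smul, map_smul, map_smul, hφ, MvPolynomial.aeval_X]
  have h3 : RingHom.ker φ.toRingHom = J := by
    apply le_antisymm
    · intro f hf
      have hf' : φ f = 0 := hf
      have h4 : (Ideal.Quotient.mkₐ L J).comp φ = Ideal.Quotient.mkₐ L J := by
        apply MvPolynomial.algHom_ext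
        intro i
        rw [AlgHom.comp_apply, hφ, MvPolynomial.aeval_X]
        change Ideal.Quotient.mk J _ = Ideal.Quotient.mk J _
        rw [Ideal.Quotient.eq, ← neg_mem_iff, neg_sub, ← lin_single i, ← map_sub]
        apply Ideal.subset_span
        exact ⟨_, hp2 _, rfl⟩
      have h5 := AlgHom.congr_fun h4 f
      rw [AlgHom.comp_apply, hf', map_zero] at h5
      exact Ideal.Quotient.eq_zero_iff_mem.1 h5.symm
    · rw [hJ, Ideal.span_le]
      rintro _ ⟨c, hc, rfl⟩
      change φ (lin c) = 0
      rw [h1, hp1 c hc, map_zero]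
  rw [← h3]
  exact RingHom.ker_isPrime _

/-- products of linear forms -/
def IsProdLin (f : MvPolynomial (Fin n) L) : Prop :=
  ∃ s : Multiset (Fin n → L), f = (s.map (fun c => lin c)).prod

theorem isProdLin_one : IsProdLin (1 : MvPolynomial (Fin n) L) := ⟨0, by simp⟩

theorem isProdLin_lin (c : Fin n → L) : IsProdLin (lin c) := ⟨{c}, by simp⟩

theorem isProdLin_mul {f g : MvPolynomial (Fin n) L} (hf : IsProdLin f) (hg : IsProdLin g) :
    IsProdLin (f * g) := by
  obtain ⟨s, rfl⟩ := hf
  obtain ⟨t, rfl⟩ := hg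
  exact ⟨s + t, by simp⟩

theorem isProdLin_pow {f : MvPolynomial (Fin n) L} (hf : IsProdLin f) (k : ℕ) :
    IsProdLin (f ^ k) := by
  induction k with
  | zero => rw [pow_zero]; exact isProdLin_one
  | succ k ih => rw [pow_succ]; exact isProdLin_mul ih hf

theorem isProdLin_prod {ι : Type} (s : Finset ι) (f : ι → MvPolynomial (Fin n) L)
    (hf : ∀ i ∈ s, IsProdLin (f i)) : IsProdLin (∏ i ∈ s, f i) := by
  classical
  induction s using Finset.induction_on with
  | empty => rw [Finset.prod_empty]; exact isProdLin_one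
  | insert a s ha ih =>
    rw [Finset.prod_insert ha]
    exact isProdLin_mul (hf a (Finset.mem_insert_self _ _))
      (ih (fun i hi => hf i (Finset.mem_insert_of_mem hi)))

theorem isProdLin_map {K : Type} [Field K] [Algebra K L] {f : MvPolynomial (Fin n) K}
    (hf : IsProdLin f) : IsProdLin (MvPolynomial.map (algebraMap K L) f) := by
  obtain ⟨s, rfl⟩ := hf
  refine ⟨s.map (fun c => fun i => algebraMap K L (c i)), ?_⟩
  rw [map_multiset_prod, Multiset.map_map, Multiset.map_map]
  congr 1
  apply Multiset.map_congr rfl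
  intro c _
  simp only [Function.comp]
  rw [lin_apply, lin_apply, map_sum]
  apply Finset.sum_congr rfl
  intro i _
  rw [MvPolynomial.smul_eq_C_mul, MvPolynomial.smul_eq_C_mul, map_mul, MvPolynomial.map_C,
    MvPolynomial.map_X]

/-- minimal primes of an ideal generated by products of linear forms are generated by
linear forms -/
theorem minimalPrimes_lin {ι : Type} (F : ι → MvPolynomial (Fin n) L)
    (hF : ∀ i, IsProdLin (F i)) (v : Fin n → L) (hv : ∀ i, MvPolynomial.eval v (F i) = 0) :
    ∃ P ∈ (Ideal.span (Set.range F)).minimalPrimes,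
        (∃ S : Set (MvPolynomial (Fin n) L),
          (∀ f ∈ S, f.IsHomogeneous 1) ∧ P = Ideal.span S) ∧
        ∀ f ∈ P, MvPolynomial.eval v f = 0 := by
  have hprime : (RingHom.ker (MvPolynomial.eval v)).IsPrime := RingHom.ker_isPrime _
  have hle : Ideal.span (Set.range F) ≤ RingHom.ker (MvPolynomial.eval v) := by
    rw [Ideal.span_le]
    rintro _ ⟨i, rfl⟩
    exact hv i
  obtain ⟨P, hP, hPle⟩ := Ideal.exists_minimalPrimes_le hle
  refine ⟨P, hP, ?_, fun f hf => hPle hf⟩
  have hPp : P.IsPrime := hP.1.1
  let W : Submodule L (Fin n → L) :=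
    { carrier := {c | lin c ∈ P}
      add_mem' := by
        intro a b ha hb
        simp only [Set.mem_ofPred_eq, map_add] at *
        exact P.add_mem ha hb
      zero_mem' := by
        simp
      smul_mem' := by
        intro a b hb
        simp only [Set.mem_ofPred_eq, map_smul] at *
        rw [MvPolynomial.smul_eq_C_mul]
        exact P.mul_mem_left _ hb }
  refine ⟨lin '' (W : Set (Fin n → L)), ?_, ?_⟩
  · rintro _ ⟨c, -, rfl⟩
    exact lin_homog c
  · have hQ := span_lin_prime W
    have h1 : Ideal.span (lin '' (W : Set (Fin n → L))) ≤ P := by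
      rw [Ideal.span_le]
      rintro _ ⟨c, hc, rfl⟩
      exact hc
    have h2 : Ideal.span (Set.range F) ≤ Ideal.span (lin '' (W : Set (Fin n → L))) := by
      rw [Ideal.span_le]
      rintro _ ⟨i, rfl⟩
      obtain ⟨s, hs⟩ := hF i
      have h3 : F i ∈ P := hP.1.2 (Ideal.subset_span ⟨i, rfl⟩)
      rw [hs] at h3
      rw [hPp.multiset_prod_mem_iff_exists_mem] at h3
      obtain ⟨f, hf, hfP⟩ := h3
      rw [Multiset.mem_map] at hf
      obtain ⟨c, hc, rfl⟩ := hf
      rw [hs]
      have h4 : lin c ∣ (s.map (fun c => lin c)).prod :=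
        Multiset.dvd_prod (Multiset.mem_map_of_mem _ hc)
      exact Ideal.mem_of_dvd _ h4 (Ideal.subset_span ⟨c, hfP, rfl⟩)
    exact le_antisymm (hP.2 ⟨hQ, h2⟩ h1) h1

end LinPrime

end Pool.Agent.W598.ER
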