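import Pool.Agent.W598.ER.XX
import Pool.Agent.W598.ER.LinPrime

/-!
# The extremal example (LowB) for the project ER
-/

set_option autoImplicit false

namespace Pool.Agent.W598.ER

open Finset Pool.Agent.W477.ER MvPolynomial

/-- the digits -/
def dig (q x s : ℕ) : ℕ := x / q ^ s % q

theorem sum_dig (q t x : ℕ) : x % q ^ t = ∑ s ∈ range t, dig q x s * q ^ s := by
  induction t with
  | zero => simp [Nat.mod_one]
  | succ t ih =>
    rw [Finset.sum_range_succ, ← ih, Nat.mod_pow_succ, dig]
    ring

theorem dig_lt (q x s : ℕ) (hq : 0 < q) : dig q x s < q := Nat.mod_lt _ hq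

theorem ds_eq (q t : ℕ) (hq : 2 ≤ q) : ∀ x, x < q ^ t → ds q x = ∑ s ∈ range t, dig q x s := by
  induction t with
  | zero =>
    intro x hx
    have : x = 0 := by simpa using hx
    subst this
    simp [ds]
  | succ t ih =>
    intro x hx
    rcases Nat.eq_zero_or_pos x with h | h
    · subst h
      simp [ds, dig]
    · have h1 : ds q x = x % q + ds q (x / q) := by
        unfold ds
        rw [Nat.digits_def' (by omega) h, List.sum_cons]
      have h2 : x / q < q ^ t := by
        rw [Nat.div_lt_iff_lt_mul (by omega)]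
        rw [pow_succ] at hx
        exact hx
      rw [h1, ih _ h2, Finset.sum_range_succ']
      have h3 : ∀ s, dig q (x / q) s = dig q x (s + 1) := by
        intro s
        unfold dig
        rw [Nat.div_div_eq_div_mul, ← pow_succ']
      simp only [h3]
      have h4 : dig q x 0 = x % q := by simp [dig]
      rw [h4, add_comm]

theorem exists_dig_lt (q t x x' : ℕ) (hx : x < q ^ t) (h : x' < x) :
    ∃ s < t, dig q x' s < dig q x s := by
  by_contra hc
  push Not at hc
  have h1 := sum_dig q t x
  have h2 := sum_dig q t x'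
  rw [Nat.mod_eq_of_lt hx] at h1
  rw [Nat.mod_eq_of_lt (by omega)] at h2
  have h3 : ∑ s ∈ range t, dig q x s * q ^ s ≤ ∑ s ∈ range t, dig q x' s * q ^ s := by
    apply Finset.sum_le_sum
    intro s hs
    exact Nat.mul_le_mul_right _ (hc s (Finset.mem_range.1 hs))
  omega

theorem eq_of_dig (q t x x' : ℕ) (hx : x < q ^ t) (hx' : x' < q ^ t)
    (h : ∀ s < t, dig q x s = dig q x' s) : x = x' := by
  have h1 := sum_dig q t x
  have h2 := sum_dig q t x'
  rw [Nat.mod_eq_of_lt hx] at h1
  rw [Nat.mod_eq_of_lt hx'] at h2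
  rw [h1, h2]
  apply Finset.sum_congr rfl
  intro s hs
  rw [h s (Finset.mem_range.1 hs)]

/-- top digit is large if the number is large -/
theorem top_dig_le (q τ x x' : ℕ) (hx : x < q ^ (τ + 1)) (h : x' ≤ x) :
    dig q x' τ ≤ dig q x τ := by
  unfold dig
  have h1 : x / q ^ τ < q := by
    rw [pow_succ] at hx
    exact Nat.div_lt_of_lt_mul hx
  have h2 : x' / q ^ τ ≤ x / q ^ τ := Nat.div_le_div_right h
  rw [Nat.mod_eq_of_lt h1, Nat.mod_eq_of_lt (lt_of_le_of_lt h2 h1)]
  exact h2

section Constr

variable {K : Type} [Field K] (q d M : ℕ) (c : ℕ → K)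

/-- the coordinate -/
noncomputable def Y (s : ℕ) : MvPolynomial (Fin (M + 1)) K := X (Fin.ofNat (M + 1) s)

theorem isProdLin_Y (s : ℕ) : IsProdLin (Y (K := K) M s) := by
  unfold Y
  rw [← lin_single]
  exact isProdLin_lin _

theorem isProdLin_YY (s t : ℕ) (a : K) : IsProdLin (Y (K := K) M s - C a * Y M t) := by
  unfold Y
  rw [← lin_single, ← lin_single, ← MvPolynomial.smul_eq_C_mul, ← map_smul, ← map_sub]
  exact isProdLin_lin _

theorem homog_Y (s : ℕ) : (Y (K := K) M s).IsHomogeneous 1 := isHomogeneous_X _ _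

theorem homog_YY (s t : ℕ) (a : K) : (Y (K := K) M s - C a * Y M t).IsHomogeneous 1 := by
  have h1 := (isHomogeneous_C (Fin (M + 1)) a).mul (homog_Y (K := K) M t)
  rw [zero_add] at h1
  exact (homog_Y M s).sub h1

/-- the form belonging to pivot τ + 1 and the number x -/
noncomputable def phiV (τ x : ℕ) : MvPolynomial (Fin (M + 1)) K :=
  (∏ k ∈ range (dig q x τ + 1), (Y M (τ + 1) - C (c k) * Y M τ)) * Y M τ ^ (d - 1 - ds q x) *
    ∏ s ∈ range τ, ∏ k ∈ range (dig q x s), (Y M s - C (c k) * Y M τ)

theorem isProdLin_phiV (τ x : ℕ) : IsProdLin (phiV q d M c τ x) := by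
  unfold phiV
  apply isProdLin_mul
  · apply isProdLin_mul
    · apply isProdLin_prod
      intro k _
      exact isProdLin_YY _ _ _ _
    · exact isProdLin_pow (isProdLin_Y _ _) _
  · apply isProdLin_prod
    intro s _
    apply isProdLin_prod
    intro k _
    exact isProdLin_YY _ _ _ _

theorem homog_phiV (τ x : ℕ) (hq : 2 ≤ q) (hx : x < q ^ (τ + 1)) (hd : ds q x + 1 ≤ d) :
    (phiV q d M c τ x).IsHomogeneous d := by
  have h1 : (∏ k ∈ range (dig q x τ + 1), (Y M (τ + 1) - C (c k) * Y M τ)).IsHomogeneous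
      (∑ _k ∈ range (dig q x τ + 1), 1) :=
    MvPolynomial.IsHomogeneous.prod _ _ _ (fun k _ => homog_YY _ _ _ _)
  have h2 : (Y (K := K) M τ ^ (d - 1 - ds q x)).IsHomogeneous (1 * (d - 1 - ds q x)) :=
    (homog_Y M τ).pow _
  have h3 : (∏ s ∈ range τ, ∏ k ∈ range (dig q x s),
      (Y M s - C (c k) * Y M τ)).IsHomogeneous
        (∑ s ∈ range τ, ∑ _k ∈ range (dig q x s), 1) :=
    MvPolynomial.IsHomogeneous.prod _ _ _ (fun s _ =>
      MvPolynomial.IsHomogeneous.prod _ _ _ (fun k _ => homog_YY _ _ _ _))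
  have h4 := (h1.mul h2).mul h3
  have h5 := ds_eq q (τ + 1) hq x hx
  rw [Finset.sum_range_succ] at h5
  simp only [Finset.sum_const, Finset.card_range, smul_eq_mul, mul_one, one_mul] at h4
  have h6 : dig q x τ + 1 + (d - 1 - ds q x) + ∑ s ∈ range τ, dig q x s = d := by omega
  rw [h6] at h4
  exact h4

/-- coordinates of the point belonging to pivot τ + 1 and the number x -/
noncomputable def vec (τ x : ℕ) (s : ℕ) : K :=
  if τ + 1 < s then 0 else
    if dig q x τ + 1 < q then
      (if s = τ + 1 then c (dig q x τ + 1) else if s = τ then 1 else c (dig q x s))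
    else (if s = τ + 1 then 1 else if s = τ then 0 else c (dig q x s))

theorem eval_Y (w : ℕ → K) (s : ℕ) (hs : s ≤ M) :
    MvPolynomial.eval (fun i : Fin (M + 1) => w i.val) (Y M s) = w s := by
  unfold Y
  rw [MvPolynomial.eval_X]
  congr 1
  rw [Fin.val_ofNat]
  exact Nat.mod_eq_of_lt (by omega)

theorem eval_phiV (w : ℕ → K) (τ x : ℕ) (hτ : τ + 1 ≤ M) :
    MvPolynomial.eval (fun i : Fin (M + 1) => w i.val) (phiV q d M c τ x) =
      (∏ k ∈ range (dig q x τ + 1), (w (τ + 1) - c k * w τ)) * w τ ^ (d - 1 - ds q x) *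
        ∏ s ∈ range τ, ∏ k ∈ range (dig q x s), (w s - c k * w τ) := by
  unfold phiV
  rw [map_mul, map_mul, map_pow, map_prod, map_prod, eval_Y M w τ (by omega)]
  congr 1
  · congr 1
    apply Finset.prod_congr rfl
    intro k _
    rw [map_sub, map_mul, eval_Y M w τ (by omega), eval_Y M w (τ + 1) (by omega), eval_C]
  · apply Finset.prod_congr rfl
    intro s hs
    rw [Finset.mem_range] at hs
    rw [map_prod]
    apply Finset.prod_congr rfl
    intro k _
    rw [map_sub, map_mul, eval_Y M w τ (by omega), eval_Y M w s (by omega), eval_C]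

variable (hq : 2 ≤ q) (hdq : d < q) (hc0 : c 0 = 0)
  (hc : ∀ a b, a < q → b < q → c a = c b → a = b)

include hq hdq hc

theorem top_dig (τ x : ℕ) (hx : x < q ^ (τ + 1)) (hd : ds q x + 1 ≤ d) :
    dig q x τ + 1 < q := by
  have h5 := ds_eq q (τ + 1) hq x hx
  rw [Finset.sum_range_succ] at h5
  omega

theorem eval_self (τ x : ℕ) (hτ : τ + 1 ≤ M) (hx : x < q ^ (τ + 1)) (hd : ds q x + 1 ≤ d) :
    MvPolynomial.eval (fun i : Fin (M + 1) => vec q c τ x i.val) (phiV q d M c τ x) ≠ 0 := by
  rw [eval_phiV q d M c _ τ x hτ]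
  have ht := top_dig q d c hq hdq hc τ x hx hd
  have e1 : vec q c τ x (τ + 1) = c (dig q x τ + 1) := by
    unfold vec
    rw [if_neg (by omega), if_pos ht, if_pos rfl]
  have e2 : vec q c τ x τ = 1 := by
    unfold vec
    rw [if_neg (by omega), if_pos ht, if_neg (by omega), if_pos rfl]
  have e3 : ∀ s < τ, vec q c τ x s = c (dig q x s) := by
    intro s hs
    unfold vec
    rw [if_neg (by omega), if_pos ht, if_neg (by omega), if_neg (by omega)]
  rw [e1, e2, one_pow, mul_one]
  apply mul_ne_zero
  · rw [Finset.prod_ne_zero_iff]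
    intro k hk
    rw [Finset.mem_range] at hk
    rw [mul_one, sub_ne_zero]
    intro h
    have := hc _ _ ht (by omega) h
    omega
  · rw [Finset.prod_ne_zero_iff]
    intro s hs
    rw [Finset.mem_range] at hs
    rw [e3 s hs, Finset.prod_ne_zero_iff]
    intro k hk
    rw [Finset.mem_range] at hk
    rw [mul_one, sub_ne_zero]
    intro h
    have h1 := dig_lt q x s (by omega)
    have := hc _ _ h1 (by omega) h
    omega

include hc0

theorem eval_lower (τ x τ' x' : ℕ) (hτ : τ + 1 ≤ M) (hτ' : τ' < τ) :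
    MvPolynomial.eval (fun i : Fin (M + 1) => vec q c τ' x' i.val) (phiV q d M c τ x) = 0 := by
  rw [eval_phiV q d M c _ τ x hτ]
  have e1 : vec q c τ' x' (τ + 1) = 0 := by
    unfold vec
    rw [if_pos (by omega)]
  rw [e1]
  apply mul_eq_zero_of_left
  apply mul_eq_zero_of_left
  apply Finset.prod_eq_zero (i := 0) (by simp)
  rw [hc0]
  simp

theorem eval_same (τ x x' : ℕ) (hτ : τ + 1 ≤ M) (hx : x < q ^ (τ + 1)) (hd : ds q x + 1 ≤ d)
    (hxx : x' < x) :
    MvPolynomial.eval (fun i : Fin (M + 1) => vec q c τ x' i.val) (phiV q d M c τ x) = 0 := by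
  rw [eval_phiV q d M c _ τ x hτ]
  have ht := top_dig q d c hq hdq hc τ x hx hd
  have ht' : dig q x' τ + 1 < q := by
    have := top_dig_le q τ x x' hx hxx.le
    omega
  have e1 : vec q c τ x' (τ + 1) = c (dig q x' τ + 1) := by
    unfold vec
    rw [if_neg (by omega), if_pos ht', if_pos rfl]
  have e2 : vec q c τ x' τ = 1 := by
    unfold vec
    rw [if_neg (by omega), if_pos ht', if_neg (by omega), if_pos rfl]
  have e3 : ∀ s < τ, vec q c τ x' s = c (dig q x' s) := by
    intro s hs
    unfold vec
    rw [if_neg (by omega), if_pos ht', if_neg (by omega), if_neg (by omega)]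
  obtain ⟨s, hs, hlt⟩ := exists_dig_lt q (τ + 1) x x' hx hxx
  rcases Nat.lt_or_ge s τ with h | h
  · apply mul_eq_zero_of_right
    apply Finset.prod_eq_zero (i := s) (by simpa using h)
    apply Finset.prod_eq_zero (i := dig q x' s) (by simpa using hlt)
    rw [e3 s h, e2]
    ring
  · have h1 : s = τ := by omega
    subst h1
    apply mul_eq_zero_of_left
    apply mul_eq_zero_of_left
    apply Finset.prod_eq_zero (i := dig q x' s + 1) (by simpa using hlt)
    rw [e1, e2]
    ring

/-- pivot coordinate -/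
theorem vec_pivot (τ x : ℕ) : vec q c τ x (τ + 1) ≠ 0 := by
  unfold vec
  rw [if_neg (by omega), if_pos rfl, if_pos rfl]
  split_ifs with h1
  · intro h
    rw [← hc0] at h
    have := hc _ _ h1 (by omega) h
    omega
  · exact one_ne_zero

theorem vec_inj (τ x τ' x' : ℕ) (hx : x < q ^ (τ + 1)) (hx' : x' < q ^ (τ' + 1))
    (hττ : τ' ≤ τ) (hτ : τ + 1 ≤ M) (a : K)
    (h : ∀ s ≤ M, vec q c τ x s = a * vec q c τ' x' s) : τ = τ' ∧ x = x' := by
  have h1 := vec_pivot q d c hq hdq hc0 hc τ x
  have h2 : τ = τ' := by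
    by_contra hne
    have h3 := h (τ + 1) hτ
    have h4 : vec q c τ' x' (τ + 1) = 0 := by
      unfold vec
      rw [if_pos (by omega)]
    rw [h4, mul_zero] at h3
    exact h1 h3
  subst h2
  refine ⟨rfl, ?_⟩
  have hs := h τ (by omega)
  have hs1 := h (τ + 1) hτ
  have hlow : ∀ s < τ, c (dig q x s) = a * c (dig q x' s) := by
    intro s hs
    have := h s (by omega)
    have e1 : ∀ z, vec q c τ z s = c (dig q z s) := by
      intro z
      unfold vec
      rw [if_neg (by omega)]
      split_ifs <;> first | rfl | omega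
    rw [e1, e1] at this
    exact this
  have hkey : a = 1 → (dig q x τ = dig q x' τ) → x = x' := by
    intro ha hd
    apply eq_of_dig q (τ + 1) x x' hx hx'
    intro s hs
    rcases Nat.lt_or_ge s τ with h | h
    · have h5 := hlow s h
      rw [ha, one_mul] at h5
      exact hc _ _ (dig_lt q x s (by omega)) (dig_lt q x' s (by omega)) h5
    · have : s = τ := by omega
      rw [this]; exact hd
  have hd1 := dig_lt q x τ (by omega)
  have hd2 := dig_lt q x' τ (by omega)
  have v1 : ∀ z, vec q c τ z (τ + 1) = if dig q z τ + 1 < q then c (dig q z τ + 1) else 1 := by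
    intro z
    simp [vec]
  have v2 : ∀ z, vec q c τ z τ = if dig q z τ + 1 < q then 1 else 0 := by
    intro z
    simp [vec]
  rw [v1, v1] at hs1
  rw [v2, v2] at hs
  by_cases h5 : dig q x τ + 1 < q
  · by_cases h6 : dig q x' τ + 1 < q
    · rw [if_pos h5, if_pos h6] at hs hs1
      have ha : a = 1 := by rw [mul_one] at hs; exact hs.symm
      rw [ha, one_mul] at hs1
      have := hc _ _ h5 h6 hs1
      exact hkey ha (by omega)
    · rw [if_pos h5, if_neg h6] at hs
      rw [mul_zero] at hs
      exact absurd hs one_ne_zero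
  · by_cases h6 : dig q x' τ + 1 < q
    · rw [if_neg h5, if_pos h6] at hs
      rw [mul_one] at hs
      rw [if_neg h5, ← hs, zero_mul] at hs1
      exact absurd hs1 one_ne_zero
    · rw [if_neg h5, if_neg h6, mul_one] at hs1
      exact hkey hs1.symm (by omega)

end Constr

/-- binomial value -/
theorem al_binom (hAB : AlBasic) (hAP : AlPow) (q : ℕ) (hq : 2 ≤ q) :
    ∀ n f a e : ℕ, e < a + q → e = a + f → al q a e (q ^ n) = (n + f).choose f := by
  obtain ⟨-, -, -, A4, -, -, A7⟩ := hAB
  intro n
  induction n with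
  | zero =>
    intro f a e _ h2
    have h1 : al q a e 1 = 1 := by
      unfold al
      rw [Finset.range_one, Finset.filter_singleton, if_pos]
      · rfl
      · simp [ds, h2]
    rw [pow_zero, h1, zero_add, Nat.choose_self]
  | succ n ih =>
    intro f
    induction f with
    | zero =>
      intro a e h1 h2
      rw [hAP q a e n hq h1, ih 0 a e h1 h2, A4 q (a + 1) e _ (by omega)]
      simp
    | succ f ihf =>
      intro a e h1 h2
      rw [hAP q a e n hq h1, ih (f + 1) a e h1 h2, ihf (a + 1) e (by omega) (by omega)]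
      have h3 : n + 1 + (f + 1) = (n + (f + 1)) + 1 := by ring
      rw [h3, Nat.choose_succ_succ]
      have h4 : n + 1 + f = n + (f + 1) := by ring
      rw [h4, add_comm]

/-- the number of the pivot (minus one) -/
def tau (q n : ℕ) : ℕ := Nat.log q ((q - 1) * n + 1) - 1

def xo (q n : ℕ) : ℕ := n - pp q (tau q n + 1)

theorem tau_spec (hpp : PpBasic) (q n : ℕ) (hq : 2 ≤ q) (hn : 1 ≤ n) :
    xo q n < q ^ (tau q n + 1) ∧ n = pp q (tau q n + 1) + xo q n ∧
      dl q n = 1 + ds q (xo q n) := by
  obtain ⟨m, x, hx, rfl⟩ := exists_rep hpp q n hq hn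
  have h1 : Nat.log q ((q - 1) * (pp q (m + 1) + x) + 1) = m + 1 := by
    apply log_char hpp q (m + 1) _ hq (by omega)
    have := hpp.2.2.1 q (m + 1)
    omega
  have h2 : tau q (pp q (m + 1) + x) = m := by
    unfold tau
    rw [h1]
    rfl
  have h3 : xo q (pp q (m + 1) + x) = x := by
    unfold xo
    rw [h2]
    omega
  rw [h2, h3]
  refine ⟨hx, rfl, ?_⟩
  unfold dl
  rw [if_neg (by omega), h1]
  have h4 : pp q (m + 1) + x - pp q (m + 1) = x := by omega
  rw [h4]

theorem tau_lt (hpp : PpBasic) (q n M : ℕ) (hq : 2 ≤ q) (hn : 1 ≤ n) (hM : n < pp q (M + 1)) :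
    tau q n + 1 ≤ M := by
  obtain ⟨h1, h2, h3⟩ := tau_spec hpp q n hq hn
  by_contra hc
  have := hpp.2.2.2.2.2 q (M + 1) (tau q n + 1) (by omega)
  omega

theorem tau_mono (hpp : PpBasic) (q n n' : ℕ) (hq : 2 ≤ q) (hn : 1 ≤ n) (hn' : 1 ≤ n')
    (h : n' < n) : tau q n' < tau q n ∨ (tau q n' = tau q n ∧ xo q n' < xo q n) := by
  obtain ⟨h1, h2, h3⟩ := tau_spec hpp q n hq hn
  obtain ⟨h1', h2', h3'⟩ := tau_spec hpp q n' hq hn'
  rcases lt_trichotomy (tau q n') (tau q n) with h4 | h4 | h4
  · exact Or.inl h4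
  · right
    refine ⟨h4, ?_⟩
    rw [h4] at h2'
    omega
  · exfalso
    have h5 : pp q (tau q n + 1 + 1) ≤ pp q (tau q n' + 1) :=
      hpp.2.2.2.2.2 q (tau q n + 1 + 1) (tau q n' + 1) (by omega)
    have h6 := hpp.2.2.1 q (tau q n + 1)
    omega

section Fin

variable {K : Type} [Field K] (q d M : ℕ) (c : ℕ → K)

/-- the form with number n -/
noncomputable def phi (n : ℕ) : MvPolynomial (Fin (M + 1)) K :=
  if n = 0 then Y M 0 ^ d else phiV q d M c (tau q n) (xo q n)

/-- coordinates of the point with number n -/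
noncomputable def wv (n : ℕ) (s : ℕ) : K :=
  if n = 0 then (if s = 0 then 1 else 0) else vec q c (tau q n) (xo q n) s

/-- the point with number n -/
noncomputable def vv (n : ℕ) : Fin (M + 1) → K := fun i => wv q c n i.val

theorem isProdLin_phi (n : ℕ) : IsProdLin (phi q d M c n) := by
  unfold phi
  split_ifs
  · exact isProdLin_pow (isProdLin_Y _ _) _
  · exact isProdLin_phiV _ _ _ _ _ _

theorem homog_phi (hpp : PpBasic) (n : ℕ) (hq : 2 ≤ q) (hn : dl q n ≤ d) :
    (phi q d M c n).IsHomogeneous d := by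
  unfold phi
  split_ifs with h
  · have := (homog_Y (K := K) M 0).pow d
    rwa [one_mul] at this
  · obtain ⟨h1, h2, h3⟩ := tau_spec hpp q n hq (by omega)
    exact homog_phiV q d M c _ _ hq h1 (by omega)

variable (hq : 2 ≤ q) (hdq : d < q) (hd1 : 1 ≤ d) (hc0 : c 0 = 0)
  (hc : ∀ a b, a < q → b < q → c a = c b → a = b)

include hq hdq hc hc0 hd1

theorem phi_self (hpp : PpBasic) (n : ℕ) (hn : n < pp q (M + 1)) (hd : dl q n ≤ d) :
    MvPolynomial.eval (vv q M c n) (phi q d M c n) ≠ 0 := by
  unfold phi vv wv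
  split_ifs with h
  · rw [map_pow, eval_Y M (fun s => if s = 0 then (1 : K) else 0) 0 (by omega)]
    simp
  · obtain ⟨h1, h2, h3⟩ := tau_spec hpp q n hq (by omega)
    exact eval_self q d M c hq hdq hc _ _ (tau_lt hpp q n M hq (by omega) hn) h1 (by omega)

theorem phi_lt (hpp : PpBasic) (n n' : ℕ) (hn : n < pp q (M + 1)) (hd : dl q n ≤ d)
    (hnn : n' < n) :
    MvPolynomial.eval (vv q M c n') (phi q d M c n) = 0 := by
  obtain ⟨h1, h2, h3⟩ := tau_spec hpp q n hq (by omega)
  have hτ := tau_lt hpp q n M hq (by omega) hn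
  unfold phi
  rw [if_neg (by omega)]
  rcases Nat.eq_zero_or_pos n' with h | h
  · subst h
    have : vv q M c 0 = fun i : Fin (M + 1) => (if i.val = 0 then (1 : K) else 0) := by
      ext i
      unfold vv wv
      rw [if_pos rfl]
    rw [this, eval_phiV q d M c (fun s => if s = 0 then (1 : K) else 0) _ _ hτ]
    apply mul_eq_zero_of_left
    apply mul_eq_zero_of_left
    apply Finset.prod_eq_zero (i := 0) (by simp)
    rw [hc0]
    simp
  · have : vv q M c n' = fun i : Fin (M + 1) => vec q c (tau q n') (xo q n') i.val := by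
      ext i
      unfold vv wv
      rw [if_neg (by omega)]
    rw [this]
    rcases tau_mono hpp q n n' hq (by omega) h hnn with h4 | ⟨h4, h5⟩
    · exact eval_lower q d M c hq hdq hc0 hc _ _ _ _ hτ h4
    · rw [h4]
      exact eval_same q d M c hq hdq hc0 hc _ _ _ hτ h1 (by omega) h5

theorem vv_ne (hpp : PpBasic) (n : ℕ) (hn : n < pp q (M + 1)) : vv q M c n ≠ 0 := by
  intro h
  rcases Nat.eq_zero_or_pos n with h0 | h0
  · subst h0
    have := congrFun h ⟨0, by omega⟩
    unfold vv wv at this
    simp at this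
  · have hτ := tau_lt hpp q n M hq (by omega) hn
    have := congrFun h ⟨tau q n + 1, by omega⟩
    unfold vv wv at this
    rw [if_neg (by omega)] at this
    exact vec_pivot q d c hq hdq hc0 hc _ _ this

theorem vv_inj (hpp : PpBasic) (n n' : ℕ) (hn : n < pp q (M + 1)) (hnn : n' ≤ n)
    (a : K) (h : vv q M c n = a • vv q M c n') : n = n' := by
  rcases Nat.eq_zero_or_pos n with h0 | h0
  · omega
  · obtain ⟨h1, h2, h3⟩ := tau_spec hpp q n hq (by omega)
    have hτ := tau_lt hpp q n M hq (by omega) hn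
    have hs : ∀ s ≤ M, wv q c n s = a * wv q c n' s := by
      intro s hs
      have := congrFun h ⟨s, by omega⟩
      exact this
    rcases Nat.eq_zero_or_pos n' with h0' | h0'
    · exfalso
      have h4 := hs (tau q n + 1) hτ
      subst h0'
      unfold wv at h4
      rw [if_neg (by omega), if_pos rfl, if_neg (by omega), mul_zero] at h4
      exact vec_pivot q d c hq hdq hc0 hc _ _ h4
    · obtain ⟨h1', h2', h3'⟩ := tau_spec hpp q n' hq (by omega)
      have h5 : tau q n' ≤ tau q n := by
        rcases Nat.eq_or_lt_of_le hnn with h6 | h6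
        · rw [h6]
        · rcases tau_mono hpp q n n' hq h0 h0' h6 with h7 | h7 <;> omega
      have h6 := vec_inj q d M c hq hdq hc0 hc (tau q n) (xo q n) (tau q n') (xo q n') h1 h1'
        h5 hτ a (by
          intro s hsM
          have := hs s hsM
          unfold wv at this
          rw [if_neg (by omega), if_neg (by omega)] at this
          exact this)
      rw [h2, h2', h6.1, h6.2]

end Fin

theorem isProdLin_eval_smul {K : Type} [Field K] {n : ℕ} {f : MvPolynomial (Fin n) K}
    (hf : IsProdLin f) (a : K) (v : Fin n → K) (h : MvPolynomial.eval v f = 0) :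
    MvPolynomial.eval (a • v) f = 0 := by
  obtain ⟨s, rfl⟩ := hf
  rw [map_multiset_prod, Multiset.map_map, Multiset.prod_eq_zero_iff, Multiset.mem_map] at h ⊢
  obtain ⟨c, hc, h1⟩ := h
  refine ⟨c, hc, ?_⟩
  simp only [Function.comp] at h1 ⊢
  rw [lin_eval] at h1 ⊢
  have : ∑ i, c i * (a • v) i = a * ∑ i, c i * v i := by
    rw [Finset.mul_sum]
    apply Finset.sum_congr rfl
    intro i _
    rw [Pi.smul_apply, smul_eq_mul]
    ring
  rw [this, h1, mul_zero]

theorem exists_c (K : Type) [Field K] [Finite K] : ∃ c : ℕ → K, c 0 = 0 ∧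
    ∀ a b, a < Nat.card K → b < Nat.card K → c a = c b → a = b := by
  have e := Finite.equivFin K
  have hpos : 0 < Nat.card K := Nat.card_pos
  set e' := e.trans (Equiv.swap (e 0) ⟨0, hpos⟩) with he'
  have h0 : e'.symm ⟨0, hpos⟩ = 0 := by
    rw [Equiv.symm_apply_eq, he']
    simp
  refine ⟨fun a => if h : a < Nat.card K then e'.symm ⟨a, h⟩ else 0, ?_, ?_⟩
  · simp only [hpos, dif_pos, h0]
  · intro a b ha hb h
    simp only [ha, hb, dif_pos] at h
    have := e'.symm.injective h
    simpa using this

theorem tri_indep {K V : Type} [Field K] [AddCommGroup V] [Module K V] (r : ℕ) (F : Fin r → V)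
    (ev : Fin r → (V →ₗ[K] K)) (h1 : ∀ i, ev i (F i) ≠ 0) (h2 : ∀ i j, i < j → ev i (F j) = 0) :
    LinearIndependent K F := by
  classical
  rw [Fintype.linearIndependent_iff]
  intro g hg
  by_contra hc
  push Not at hc
  obtain ⟨i0, hi0⟩ := hc
  have hne : (Finset.univ.filter (fun i => g i ≠ 0)).Nonempty :=
    ⟨i0, by simpa using hi0⟩
  set i := (Finset.univ.filter (fun i => g i ≠ 0)).min' hne with hi
  have h3 : g i ≠ 0 := by
    have := Finset.min'_mem _ hne
    rw [← hi] at this
    simpa using this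
  have h4 : ∀ j < i, g j = 0 := by
    intro j hj
    by_contra hjc
    have := Finset.min'_le (Finset.univ.filter (fun i => g i ≠ 0)) j (by simpa using hjc)
    rw [← hi] at this
    exact absurd this (not_le.2 hj)
  have h5 := congrArg (ev i) hg
  rw [map_sum, map_zero, Finset.sum_eq_single i] at h5
  · rw [map_smul, smul_eq_mul] at h5
    rcases mul_eq_zero.1 h5 with h6 | h6
    · exact h3 h6
    · exact h1 i h6
  · intro j _ hj
    rcases lt_or_gt_of_ne hj with h6 | h6
    · rw [h4 j h6, zero_smul, map_zero]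
    · rw [map_smul, h2 i j h6, smul_zero]
  · intro h
    exact absurd (Finset.mem_univ i) h

open scoped LinearAlgebra.Projectivization in
theorem lowB (hAB : AlBasic) (hAP : AlPow) (hpp : PpBasic) (hBB : BeBasic) (hBP : BePP) :
    LowB := by
  intro K _ _ M d r hM hd hdq hr hrD
  set q := Nat.card K with hqdef
  have hq : 2 ≤ q := Finite.one_lt_card
  obtain ⟨c, hc0, hc⟩ := exists_c K
  rw [← hqdef] at hc
  have hD : be q 0 d (pp q (M + 1)) = (M + d).choose d := by
    rw [hBP q 0 d M hq (by omega)]
    exact al_binom hAB hAP q hq M d 0 d (by omega) (by omega)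
  set D := (M + d).choose d with hDdef
  obtain ⟨B1, -, B3, -, -, -, -, B8, -⟩ := hBB
  -- choice of N
  have hex : ∃ n, D - r < be q 0 d n := ⟨pp q (M + 1), by omega⟩
  obtain ⟨N, hN1, hN2, hN3⟩ : ∃ N, be q 0 d N = D - r ∧ D - r < be q 0 d (N + 1) ∧
      N < pp q (M + 1) := by
    classical
    have h1 := Nat.find_spec hex
    have h2 : Nat.find hex ≠ 0 := by
      intro h
      rw [h, B8] at h1
      omega
    have h3 : ¬ D - r < be q 0 d (Nat.find hex - 1) := Nat.find_min hex (by omega)
    have h4 : Nat.find hex ≤ pp q (M + 1) := Nat.find_min' hex (by omega)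
    have h5 : Nat.find hex - 1 + 1 = Nat.find hex := by omega
    have h6 := B3 q 0 d (Nat.find hex - 1)
    rw [h5] at h6
    refine ⟨Nat.find hex - 1, by omega, by rw [h5]; omega, by omega⟩
  -- the index set
  set B : Finset ℕ := (range (pp q (M + 1))).filter (fun n => N ≤ n ∧ 0 + dl q n ≤ d) with hB
  have hBcard : B.card = r := by
    have h1 : be q 0 d (pp q (M + 1)) = be q 0 d N + B.card := by
      unfold be
      rw [← Finset.card_union_of_disjoint]
      · congr 1
        ext n
        simp only [hB, Finset.mem_filter, Finset.mem_range, Finset.mem_union]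
        constructor
        · rintro ⟨h1, h2⟩
          rcases Nat.lt_or_ge n N with h3 | h3
          · exact Or.inl ⟨h3, h2⟩
          · exact Or.inr ⟨h1, h3, h2⟩
        · rintro (⟨h1, h2⟩ | ⟨h1, h2, h3⟩)
          · exact ⟨by omega, h2⟩
          · exact ⟨h1, h3⟩
      · rw [Finset.disjoint_left]
        intro n hn
        simp only [hB, Finset.mem_filter, Finset.mem_range] at hn ⊢
        omega
    omega
  set g := B.orderEmbOfFin hBcard with hg
  have hgB : ∀ i, N ≤ g i ∧ g i < pp q (M + 1) ∧ dl q (g i) ≤ d := by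
    intro i
    have h1 := Finset.orderEmbOfFin_mem B hBcard i
    have h2 := Finset.mem_filter.1 h1
    rw [Finset.mem_range] at h2
    refine ⟨h2.2.1, h2.1, ?_⟩
    have h3 := h2.2.2
    rw [zero_add] at h3
    exact h3
  set F : Fin r → MvPolynomial (Fin (M + 1)) K := fun i => phi q d M c (g i) with hF
  have hFprod : ∀ i, IsProdLin (F i) := fun i => isProdLin_phi q d M c _
  refine ⟨F, ?_, ?_, ?_, ?_⟩
  · intro i
    exact homog_phi q d M c hpp _ hq (hgB i).2.2
  · apply tri_indep r F (fun i => (MvPolynomial.aeval (R := K) (vv q M c (g i))).toLinearMap)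
    · intro i
      have := phi_self q d M c hq hdq hd hc0 hc hpp (g i) (hgB i).2.1 (hgB i).2.2
      simpa [MvPolynomial.aeval_eq_eval] using this
    · intro i j hij
      have := phi_lt q d M c hq hdq hd hc0 hc hpp (g j) (g i) (hgB j).2.1 (hgB j).2.2
        ((B.orderEmbOfFin hBcard).strictMono hij)
      simpa [MvPolynomial.aeval_eq_eval] using this
  · have hfin : Finite (ℙ K (Fin (M + 1) → K)) :=
      Finite.of_surjective (fun v : {v : Fin (M + 1) → K // v ≠ 0} =>
        Projectivization.mk K v.1 v.2) (by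
          intro x
          exact ⟨⟨x.rep, x.rep_nonzero⟩, x.mk_rep⟩)
    let pt : Fin N → ℙ K (Fin (M + 1) → K) := fun n =>
      Projectivization.mk K (vv q M c n.val)
        (vv_ne q d M c hq hdq hd hc0 hc hpp n.val (by have := n.2; omega))
    have hinj : Function.Injective pt := by
      have key : ∀ a b : Fin N, b ≤ a → pt a = pt b → a = b := by
        intro a b hab h
        rw [Projectivization.mk_eq_mk_iff'] at h
        obtain ⟨u, hu⟩ := h
        have := vv_inj q d M c hq hdq hd hc0 hc hpp a.val b.val (by have := a.2; omega) hab u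
          hu.symm
        exact Fin.ext this
      intro a b h
      rcases le_total a b with h1 | h1
      · exact (key b a h1 h.symm).symm
      · exact key a b h1 h
    set Z := {x : ℙ K (Fin (M + 1) → K) | ∀ i, MvPolynomial.eval x.rep (F i) = 0} with hZ
    have hsub : Set.range pt ⊆ Z := by
      rintro _ ⟨n, rfl⟩ i
      obtain ⟨a, ha⟩ := Projectivization.exists_smul_eq_mk_rep K (vv q M c n.val)
        (vv_ne q d M c hq hdq hd hc0 hc hpp n.val (by have := n.2; omega))
      change MvPolynomial.eval (Projectivization.mk K (vv q M c n.val) _).rep (F i) = 0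
      rw [← ha]
      apply isProdLin_eval_smul (hFprod i)
      have h1 := hgB i
      exact phi_lt q d M c hq hdq hd hc0 hc hpp (g i) n.val h1.2.1 h1.2.2
        (by have := n.2; omega)
    have hcard : N ≤ Z.ncard := by
      have h1 := Set.ncard_le_ncard hsub (Set.toFinite Z)
      have h2 : (Set.range pt).ncard = N := by
        rw [← Set.image_univ, Set.ncard_image_of_injective _ hinj, Set.ncard_univ, Nat.card_fin]
      omega
    have := B1 q 0 d (N + 1) (Z.ncard + 1) (by omega)
    omega
  · intro L _ _ x hx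
    have := minimalPrimes_lin (fun i => MvPolynomial.map (algebraMap K L) (F i))
      (fun i => isProdLin_map (hFprod i)) (fun j => algebraMap K L (x.rep j)) (by
        intro i
        have h1 : MvPolynomial.eval (fun j => algebraMap K L (x.rep j))
            (MvPolynomial.map (algebraMap K L) (F i)) =
              algebraMap K L (MvPolynomial.eval x.rep (F i)) := by
          rw [MvPolynomial.eval_map, MvPolynomial.eval₂_comp]
          rfl
        rw [h1, hx i, map_zero])
    exact this

end Pool.Agent.W598.ER
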