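import Pool.Agent.W477.ER.Stm

/-!
# Good point or special point, v = 1 (N3) for the project ER
-/

set_option autoImplicit false

namespace Pool.Agent.W598.ER

open Finset Pool.Agent.W477.ER

/-- weighted row sum -/
def TT (q : ℕ) (n : ℕ → ℕ) : ℕ := ∑ i ∈ Ico 1 q, i * n i

theorem cc_split (q : ℕ) (n : ℕ → ℕ) (hq : 2 ≤ q) :
    cc q n = n 1 + ∑ i ∈ Ico 2 q, n i := by
  unfold cc
  rw [Finset.sum_eq_sum_Ico_succ_bot (by omega : 1 < q)]

theorem TT_split (q : ℕ) (n : ℕ → ℕ) (hq : 2 ≤ q) :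
    n 1 + 2 * ∑ i ∈ Ico 2 q, n i ≤ TT q n := by
  unfold TT
  rw [Finset.sum_eq_sum_Ico_succ_bot (by omega : 1 < q), one_mul, Finset.mul_sum]
  apply Nat.add_le_add_left
  apply Finset.sum_le_sum
  intro i hi
  rw [Finset.mem_Ico] at hi
  exact Nat.mul_le_mul_right _ (by omega)

theorem cc_le_TT (q : ℕ) (n : ℕ → ℕ) (hq : 2 ≤ q) : cc q n ≤ TT q n := by
  have h1 := cc_split q n hq
  have h2 := TT_split q n hq
  omega

theorem n1_le_TT (q : ℕ) (n : ℕ → ℕ) (hq : 2 ≤ q) : n 1 ≤ TT q n := by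
  have h2 := TT_split q n hq
  omega

theorem n1_le_cc (q : ℕ) (n : ℕ → ℕ) (hq : 2 ≤ q) : n 1 ≤ cc q n := by
  have h2 := cc_split q n hq
  omega

theorem n3_of (hpp : PpBasic) (hV1 : V1) (hV2 : V2) (hV2B : V2B) (hV3 : V3) (hI5 : IneqV5)
    (hI43 : IneqV43) (hI44 : IneqV44) (hDC : DC) : N3 := by
  classical
  intro q d l r M α _ S X hq hd hM hcard hpar
  have hq2 : 2 ≤ q := by omega
  obtain ⟨D1, -, -, D4⟩ := hDC q M α S X hq2 hcard
  obtain ⟨-, hdq, -, -, hr1, hr2, hN⟩ := id hpar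
  obtain ⟨-, -, P3, -, -, P6⟩ := hpp
  set N := X.card with hNdef
  have hN' : N = pp q (l + 2) + r := by
    have := P3 q (l + 1)
    rw [hN]
    have e : pp q (l + 2) = pp q (l + 1) + q ^ (l + 1) := this
    rw [e]
    ring
  have hr3 : r ≤ (q - 2) * q ^ l + 1 := by
    refine le_trans hr2 ?_
    have : (d - 1) * q ^ l ≤ (q - 2) * q ^ l := Nat.mul_le_mul_right _ (by omega)
    omega
  have hql : 0 < q ^ l := by positivity
  have hr4 : r ≤ q ^ (l + 1) := by
    have : (q - 2) * q ^ l + q ^ l ≤ q ^ (l + 1) := by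
      have e : (q - 2) * q ^ l + q ^ l = (q - 1) * q ^ l := by
        have : q - 1 = q - 2 + 1 := by omega
        rw [this]; ring
      rw [e, pow_succ, mul_comm]
      exact Nat.mul_le_mul_left _ (by omega)
    omega
  have hNM : N < pp q M := by
    have h1 : pp q (l + 3) ≤ pp q M := P6 q (l + 3) M (by omega)
    have h2 : pp q (l + 3) = pp q (l + 2) + q ^ (l + 2) := P3 q (l + 2)
    have h3 : q ^ (l + 1) < q ^ (l + 2) := Nat.pow_lt_pow_right (by omega) (by omega)
    omega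
  by_cases hgood : ∃ P, S.Good d X P
  · exact Or.inl hgood
  right
  push Not at hgood
  have hbad : ∀ P, tot q d (ind X P) (S.nn X P) < be q 0 d N := by
    intro P
    have := hgood P
    unfold LinSp.Good at this
    exact not_le.1 this
  set Out : Finset α := Finset.univ.filter (fun P => P ∉ X) with hOut
  have hOutcard : Out.card = pp q M - N := by
    have h1 : Out = Xᶜ := by
      ext P
      simp [hOut]
    rw [h1, Finset.card_compl, hcard]
  have hOne : Out.Nonempty := by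
    rw [← Finset.card_pos, hOutcard]
    omega
  have hind0 : ∀ P ∈ Out, ind X P = 0 := by
    intro P hP
    have : P ∉ X := by simpa [hOut] using hP
    unfold ind
    rw [if_neg this]
  have hind1 : ∀ P ∈ X, ind X P = 1 := by
    intro P hP
    unfold ind
    rw [if_pos hP]
  -- double counting
  have hsum : ∑ P : α, 2 * TT q (S.nn X P) = (q - 1) * (N * (N - 1)) := by
    rw [← D4]
    apply Finset.sum_congr rfl
    intro P _
    unfold TT
    rw [Finset.mul_sum]
    apply Finset.sum_congr rfl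
    intro i _
    ring
  have hsplit : ∑ P ∈ X, 2 * TT q (S.nn X P) + ∑ P ∈ Out, 2 * TT q (S.nn X P) =
      (q - 1) * (N * (N - 1)) := by
    rw [← hsum]
    have h1 : Out = Xᶜ := by
      ext P
      simp [hOut]
    rw [h1]
    exact Finset.sum_add_sum_compl X _
  -- the point with minimal c
  obtain ⟨P0, hP0, hmin⟩ := Finset.exists_min_image Out (fun P => cc q (S.nn X P)) hOne
  have hP0X : P0 ∉ X := by simpa [hOut] using hP0
  set c := cc q (S.nn X P0) with hc
  have hc1 : Out.card * c ≤ ∑ P ∈ Out, TT q (S.nn X P) := by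
    have : ∑ P ∈ Out, c ≤ ∑ P ∈ Out, TT q (S.nn X P) := by
      apply Finset.sum_le_sum
      intro P hP
      exact le_trans (hmin P hP) (cc_le_TT q _ hq2)
    rwa [Finset.sum_const, smul_eq_mul] at this
  have hc2 : 2 * c * (pp q M - N) ≤ (q - 1) * (N * (N - 1)) := by
    have hs : ∑ P ∈ Out, 2 * TT q (S.nn X P) = 2 * ∑ P ∈ Out, TT q (S.nn X P) :=
      (Finset.mul_sum _ _ _).symm
    have e : 2 * c * Out.card = 2 * (Out.card * c) := by ring
    rw [← hOutcard, ← hsplit, e, hs]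
    omega
  have hrow0 : ∀ P ∈ Out, Rows q N 0 (S.nn X P) := by
    intro P hP
    have := D1 P
    rwa [hind0 P hP] at this
  have hbad0 : ∀ P ∈ Out, tot q d 0 (S.nn X P) < be q 0 d N := by
    intro P hP
    have := hbad P
    rwa [hind0 P hP] at this
  obtain ⟨-, hv1, hv2, -⟩ := hV1 q d l r N 0 _ hpar (hrow0 P0 hP0) (hbad0 P0 hP0)
  rw [← hc] at hv1 hv2
  have hn1 := n1_le_cc q (S.nn X P0) hq2
  rw [← hc] at hn1
  obtain ⟨hl, hv3⟩ := hV2 q d l r N _ hq hpar (hrow0 P0 hP0) (hbad0 P0 hP0)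
  have hq3 : q = 3 → r ≤ c := by
    intro h
    subst h
    have hd2 : d = 2 := by omega
    subst hd2
    exact hV3 l r N _ hpar (hrow0 P0 hP0) (hbad0 P0 hP0)
  rcases Nat.lt_or_ge (q ^ l) r with hrl | hrl
  swap
  · exact ⟨hl, hrl, P0, hP0X, by rw [← hc]; exact hc2, by rw [← hc]; omega,
      by rw [← hc]; exact hv1, by rw [← hc]; exact hq3⟩
  exfalso
  have hzP : ((pp q M - N : ℕ) : ℤ) = (pp q M : ℤ) - N := by
    rw [Nat.cast_sub hNM.le]
  have hN1 : 1 ≤ N := by omega
  have hzN : (((q - 1) * (N * (N - 1)) : ℕ) : ℤ) = ((q : ℤ) - 1) * N * (N - 1) := by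
    rw [Nat.cast_mul, Nat.cast_mul, Nat.cast_sub (by omega), Nat.cast_sub hN1]
    push_cast
    ring
  have hNz : (N : ℤ) = (pp q (l + 2) : ℤ) + r := by
    rw [hN']; push_cast; ring
  have hc2z : 2 * (c : ℤ) * ((pp q M : ℤ) - N) ≤ ((q : ℤ) - 1) * N * (N - 1) := by
    rw [← hzP, ← hzN]
    exact_mod_cast hc2
  have hPN : (0 : ℤ) ≤ (pp q M : ℤ) - N := by
    have : (N : ℤ) ≤ pp q M := by exact_mod_cast hNM.le
    omega
  rcases Nat.eq_or_lt_of_le hM with hM4 | hM5
  · -- M = l + 4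
    subst hM4
    rcases Nat.eq_or_lt_of_le hq with hq3' | hq4
    · -- q = 3
      subst hq3'
      have h1 := hI43 l r (N : ℤ) (pp 3 (l + 4) : ℤ) hrl (by simpa using hr3) rfl hNz
      have h2 : (r : ℤ) ≤ c := by exact_mod_cast hq3 rfl
      have h3 := mul_le_mul_of_nonneg_right h2 hPN
      have h4 : (2 : ℤ) * N * (N - 1) = ((3 : ℕ) - 1 : ℤ) * N * (N - 1) := by norm_num
      have h5 : 2 * (c : ℤ) * ((pp 3 (l + 4) : ℤ) - N) =
        2 * ((c : ℤ) * ((pp 3 (l + 4) : ℤ) - N)) := by ring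
      have h6 : 2 * (r : ℤ) * ((pp 3 (l + 4) : ℤ) - N) =
        2 * ((r : ℤ) * ((pp 3 (l + 4) : ℤ) - N)) := by ring
      rw [h4, h6] at h1
      rw [h5] at hc2z
      linarith
    · -- q ≥ 4
      have hinX : ∀ P ∈ X, r ≤ 2 * TT q (S.nn X P) := by
        intro P hP
        have h1 := D1 P
        rw [hind1 P hP] at h1
        have h2 := hbad P
        rw [hind1 P hP] at h2
        obtain ⟨-, -, h3, -⟩ := hV1 q d l r N 1 _ hpar h1 h2
        have h4 := cc_le_TT q (S.nn X P) hq2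
        have h5 := n1_le_TT q (S.nn X P) hq2
        omega
      have hXs : N * r ≤ ∑ P ∈ X, 2 * TT q (S.nn X P) := by
        have : ∑ P ∈ X, r ≤ ∑ P ∈ X, 2 * TT q (S.nn X P) :=
          Finset.sum_le_sum hinX
        rwa [Finset.sum_const, smul_eq_mul] at this
      obtain ⟨P1, hP1, hmin1⟩ := Finset.exists_min_image Out (fun P => TT q (S.nn X P)) hOne
      set T := TT q (S.nn X P1) with hT
      have hT1 : Out.card * (2 * T) ≤ ∑ P ∈ Out, 2 * TT q (S.nn X P) := by
        have : ∑ P ∈ Out, 2 * T ≤ ∑ P ∈ Out, 2 * TT q (S.nn X P) := by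
          apply Finset.sum_le_sum
          intro P hP
          exact Nat.mul_le_mul_left _ (hmin1 P hP)
        rwa [Finset.sum_const, smul_eq_mul] at this
      have hT2 : 2 * T * (pp q (l + 4) - N) + N * r ≤ (q - 1) * (N * (N - 1)) := by
        rw [hOutcard] at hT1
        rw [← hsplit]
        have e : 2 * T * (pp q (l + 4) - N) = (pp q (l + 4) - N) * (2 * T) := by ring
        rw [e]
        omega
      have hT3 : 2 * (T : ℤ) * ((pp q (l + 4) : ℤ) - N) ≤
          ((q : ℤ) - 1) * N * (N - 1) - N * r := by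
        have : 2 * (T : ℤ) * ((pp q (l + 4) - N : ℕ) : ℤ) + N * r ≤
            (((q - 1) * (N * (N - 1)) : ℕ) : ℤ) := by exact_mod_cast hT2
        rw [hzP, hzN] at this
        linarith
      have h1 := hI44 q l r (N : ℤ) (pp q (l + 4) : ℤ) (T : ℤ) hq4 hl hrl hr3 rfl hNz hT3
      obtain ⟨-, h2⟩ := hV2 q d l r N _ hq hpar (hrow0 P1 hP1) (hbad0 P1 hP1)
      have h3 := cc_le_TT q (S.nn X P1) hq2
      have h4 := n1_le_TT q (S.nn X P1) hq2
      have h5 := TT_split q (S.nn X P1) hq2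
      rw [← hT] at h3 h4 h5
      rcases h1 with h1 | ⟨h1, h6, h7⟩
      · have : T + q ^ l ≤ r := by exact_mod_cast h1
        omega
      · have h1' : T ≤ q ^ l + pp q (l - 1) := by exact_mod_cast h1
        have h8 := hV2B q d l r N _ hq4 hl hrl hpar (hrow0 P1 hP1) (by omega) (hbad0 P1 hP1)
        have hpl : q ^ (l - 1) ≤ pp q l := by
          have := P3 q (l - 1)
          have e : l - 1 + 1 = l := by omega
          rw [e] at this
          omega
        rcases Nat.eq_or_lt_of_le hq4 with h9 | h9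
        · have h10 : T + q ^ (l - 1) ≤ r := by exact_mod_cast h6 h9.symm
          rcases h8 with h8 | ⟨h8, -⟩
          · omega
          · omega
        · have h10 : T + pp q l ≤ r := by exact_mod_cast h7 h9
          rcases h8 with h8 | ⟨-, h8⟩
          · omega
          · omega
  · -- M ≥ l + 5
    have h1 := hI5 q l r M (N : ℤ) (pp q M : ℤ) hq hM5 hrl hr3 rfl hNz
    have h2 : ((r : ℤ) + 1) ≤ 2 * c := by
      have : r + 1 ≤ 2 * c := by omega
      exact_mod_cast this
    have h3 := mul_le_mul_of_nonneg_right h2 hPN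
    linarith

end Pool.Agent.W598.ER
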