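import Pool.Agent.W477.ER.Stm

/-!
# Facts on xx (XxBasic, BeX1) for the project ER
-/

set_option autoImplicit false

namespace Pool.Agent.W598.ER

open Finset Pool.Agent.W477.ER

theorem log_char (hpp : PpBasic) (q m n : ℕ) (hq : 2 ≤ q) (h1 : pp q m ≤ n)
    (h2 : n < pp q (m + 1)) : Nat.log q ((q - 1) * n + 1) = m := by
  obtain ⟨-, -, -, -, h5, -⟩ := hpp
  have hm := h5 q m hq
  have hm1 := h5 q (m + 1) hq
  rw [Nat.log_eq_iff (Or.inr ⟨by omega, by omega⟩)]
  constructor
  · rw [← hm]
    have := Nat.mul_le_mul_left (q - 1) h1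
    omega
  · rw [← hm1]
    have h3 : (q - 1) * n < (q - 1) * pp q (m + 1) :=
      Nat.mul_lt_mul_of_pos_left h2 (by omega)
    omega

theorem xx_char (hpp : PpBasic) (q m x : ℕ) (hq : 2 ≤ q) (hx : x < q ^ (m + 1)) :
    xx q (pp q (m + 1) + x) = min (q ^ m + x) (q ^ (m + 1)) := by
  have h := log_char hpp q (m + 1) (pp q (m + 1) + x) hq (by omega) (by
    rw [hpp.2.2.1 q (m + 1)]; omega)
  unfold xx
  rw [h]
  have h2 : m + 1 - 1 = m := by omega
  rw [h2]
  have h3 := hpp.2.2.1 q m
  have h4 : pp q (m + 1) + x - pp q m = q ^ m + x := by omega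
  rw [h4]

theorem exists_rep (hpp : PpBasic) (q n : ℕ) (hq : 2 ≤ q) (hn : 1 ≤ n) :
    ∃ m x, x < q ^ (m + 1) ∧ n = pp q (m + 1) + x := by
  obtain ⟨h0, h1, h3, h4, h5, h6⟩ := hpp
  have key : ∀ k : ℕ, n < pp q (k + 1) → ∃ m x, x < q ^ (m + 1) ∧ n = pp q (m + 1) + x := by
    intro k
    induction k with
    | zero =>
      intro h
      rw [h1] at h
      omega
    | succ k ih =>
      intro h
      rcases Nat.lt_or_ge n (pp q (k + 1)) with h7 | h7
      · exact ih h7
      · refine ⟨k, n - pp q (k + 1), ?_, by omega⟩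
        have := h3 q (k + 1)
        omega
  have hlt : n < q ^ n := Nat.lt_pow_self (by omega)
  have := h3 q n
  exact key n (by omega)

theorem xx_zero (hpp : PpBasic) (q : ℕ) (hq : 2 ≤ q) : xx q 0 = 0 := by
  unfold xx
  simp

theorem pow_le (q a b : ℕ) (hq : 2 ≤ q) (h : a ≤ b) : q ^ a ≤ q ^ b :=
  Nat.pow_le_pow_right (by omega) h

theorem xx_succ (hpp : PpBasic) (q n : ℕ) (hq : 2 ≤ q) : xx q n ≤ xx q (n + 1) := by
  rcases Nat.eq_zero_or_pos n with h | h
  · rw [h, xx_zero hpp q hq]
    omega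
  · obtain ⟨m, x, hx, rfl⟩ := exists_rep hpp q n hq h
    rw [xx_char hpp q m x hq hx]
    rcases Nat.lt_or_ge (x + 1) (q ^ (m + 1)) with h2 | h2
    · rw [add_assoc, xx_char hpp q m (x + 1) hq h2]
      omega
    · have h3 : pp q (m + 1) + x + 1 = pp q (m + 1 + 1) + 0 := by
        have := hpp.2.2.1 q (m + 1)
        omega
      have h4 : 0 < q ^ (m + 1 + 1) := by positivity
      rw [h3, xx_char hpp q (m + 1) 0 hq h4]
      have := pow_le q (m + 1) (m + 1 + 1) hq (by omega)
      omega

theorem xxBasic_of (hgg : GgBasic) (hpp : PpBasic) : XxBasic := by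
  have hpp' := hpp
  obtain ⟨h0, h1, h3, h4, h5, h6⟩ := hpp'
  obtain ⟨-, -, g3, -, g5⟩ := hgg
  have H4 : ∀ q n : ℕ, 2 ≤ q → 1 ≤ n → (q - 1) * n + 1 ≤ q * xx q n := by
    intro q n hq hn
    obtain ⟨m, x, hx, rfl⟩ := exists_rep hpp q n hq hn
    rw [xx_char hpp q m x hq hx]
    obtain ⟨p, rfl⟩ : ∃ p, q = p + 1 := ⟨q - 1, by omega⟩
    have e1 : p + 1 - 1 = p := by omega
    have e2 := h5 (p + 1) (m + 1) hq
    rw [e1] at e2 ⊢
    rcases le_total ((p + 1) ^ m + x) ((p + 1) ^ (m + 1)) with h | h
    · rw [min_eq_left h]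
      have e3 : (p + 1) ^ (m + 1) = (p + 1) * (p + 1) ^ m := by ring
      nlinarith
    · rw [min_eq_right h]
      nlinarith
  refine ⟨?_, fun q hq => xx_zero hpp q hq, ?_, H4, ?_, ?_, ?_, ?_, ?_, ?_⟩
  · intro q x y hq hxy
    exact monotone_nat_of_le_succ (f := fun n => xx q n) (fun n => xx_succ hpp q n hq) hxy
  · intro q n hq hn
    rcases Nat.eq_zero_or_pos n with h | h
    · rw [h, xx_zero hpp q hq]
    · have e : n = pp q (0 + 1) + (n - 1) := by
        rw [zero_add, h1]; omega
      rw [e, xx_char hpp q 0 (n - 1) hq (by simp; omega)]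
      rw [zero_add, h1]
      simp
      omega
  · intro q n hq
    rcases Nat.eq_zero_or_pos n with h | h
    · subst h; simp
    · have := H4 q n hq h
      omega
  · intro q n hq
    rcases Nat.eq_zero_or_pos n with h | h
    · rw [h, xx_zero hpp q hq]
    · obtain ⟨m, x, hx, rfl⟩ := exists_rep hpp q n hq h
      rw [xx_char hpp q m x hq hx]
      have := h3 q m
      omega
  · intro q n hq
    rcases Nat.eq_zero_or_pos n with h | h
    · rw [h]; omega
    · obtain ⟨m, x, hx, rfl⟩ := exists_rep hpp q n hq h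
      rw [xx_char hpp q m x hq hx]
      have e3 := h3 q m
      rcases le_total (q ^ m + x) (q ^ (m + 1)) with h | h
      · rw [min_eq_left h]
        have := g5 q (q ^ m) (q ^ m + x) hq (by omega)
        rw [g3 q m hq] at this
        omega
      · rw [min_eq_right h, g3 q (m + 1) hq]
        omega
  · intro q n m hq hn
    rcases Nat.eq_zero_or_pos n with h | h
    · rw [h]; omega
    · obtain ⟨k, x, hx, rfl⟩ := exists_rep hpp q n hq h
      rw [xx_char hpp q k x hq hx]
      have hk : k ≤ m := by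
        by_contra hc
        have e1 : pp q (m + 1 + 1) ≤ pp q (k + 1) := h6 q (m + 2) (k + 1) (by omega)
        have e2 := h3 q (m + 1)
        have e3 := h3 q m
        have e4 : 0 < q ^ m := by positivity
        omega
      have e3 := h3 q k
      have e5 := h6 q k m hk
      rcases le_total (q ^ k + x) (q ^ (k + 1)) with h | h
      · rw [min_eq_left h]
        omega
      · rw [min_eq_right h]
        rcases Nat.eq_or_lt_of_le hk with h7 | h7
        · subst h7
          omega
        · have := h6 q (k + 1) m h7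
          omega
  · intro q n m hq hn
    have hn1 : 1 ≤ n := by
      have e4 : 0 < q ^ (m + 1) := by positivity
      omega
    obtain ⟨k, x, hx, rfl⟩ := exists_rep hpp q n hq hn1
    rw [xx_char hpp q k x hq hx]
    have hk : m ≤ k := by
      by_contra hc
      have e1 : pp q (k + 1 + 1) ≤ pp q (m + 1) := h6 q (k + 2) (m + 1) (by omega)
      have e2 := h3 q (k + 1)
      have e3 := h3 q m
      have e4 := pow_le q m (m + 1) hq (by omega)
      omega
    have e3 := h3 q k
    rcases Nat.eq_or_lt_of_le hk with h7 | h7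
    · subst h7
      have : q ^ (m + 1) ≤ q ^ m + x := by omega
      exact le_min this le_rfl
    · have e5 := pow_le q (m + 1) k hq h7
      have e6 := pow_le q k (k + 1) hq (by omega)
      exact le_min (by omega) (by omega)
  · intro q n m hq hn
    rcases Nat.eq_zero_or_pos n with h | h
    · rw [h]; omega
    · obtain ⟨k, x, hx, rfl⟩ := exists_rep hpp q n hq h
      rw [xx_char hpp q k x hq hx]
      have hk : k ≤ m := by
        by_contra hc
        have e1 := h6 q (m + 2) (k + 1) (by omega)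
        omega
      have e3 := h3 q k
      rcases Nat.eq_or_lt_of_le hk with h7 | h7
      · subst h7
        omega
      · have e7 := h6 q (k + 1) m h7
        have e8 := h6 q k m hk
        omega

theorem beX1_of (hal : AlBasic) (hsh : AlShift) (hpp : PpBasic) (hbb : BeBlock) (hbp : BePP) :
    BeX1 := by
  intro q i e n hq he
  rcases Nat.eq_zero_or_pos n with h | h
  · rw [h, xx_zero hpp q hq]
    simp [al]
  · obtain ⟨m, x, hx, rfl⟩ := exists_rep hpp q n hq h
    rw [xx_char hpp q m x hq hx, hbb q i e m x hq hx.le, hbp q i e m hq he]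
    have e3 : q ^ (m + 1) = q ^ m + (q - 1) * q ^ m := by
      obtain ⟨p, rfl⟩ : ∃ p, q = p + 1 := ⟨q - 1, by omega⟩
      have e1 : p + 1 - 1 = p := by omega
      rw [e1]
      ring
    rcases le_total (q ^ m + x) (q ^ (m + 1)) with h | h
    · rw [min_eq_left h, hsh q i e m x hq (by omega)]
    · rw [min_eq_right h, e3, hsh q i e m _ hq le_rfl]
      have := hal.1 q (i + 1) e ((q - 1) * q ^ m) x (by omega)
      omega

end Pool.Agent.W598.ER
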